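import Pool.Agent.ISB.StmtsA

set_option autoImplicit false

namespace Pool.Agent.ISB.H53

open Pool.Agent.ISB

theorem mem_W {F L : Type} [Field F] [LieRing L] [LieAlgebra F L] {σ : L →ₗ[F] L} {ζ : F} {k : ℕ} {a : L} :
    a ∈ W σ ζ k ↔ σ a = ζ ^ k • a := Iff.rfl

theorem pow_W {F L : Type} [Field F] [LieRing L] [LieAlgebra F L] {σ : L →ₗ[F] L} {ζ : F} {k : ℕ} {a : L}
    (h : a ∈ W σ ζ k) (i : ℕ) : (σ ^ i) a = ζ ^ (k * i) • a := by
  induction i with
  | zero => simp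
  | succ i ih =>
    rw [pow_succ', Module.End.mul_apply, ih, map_smul, mem_W.1 h, smul_smul, ← pow_add]
    congr 2

theorem geo {F : Type} [Field F] {r : ℕ} {x : F} (hx : x ^ r = 1) (h1 : x ≠ 1) :
    ∑ i ∈ Finset.range r, x ^ i = 0 := by
  have h := mul_geom_sum x r
  rw [hx, sub_self] at h
  rcases mul_eq_zero.1 h with h | h
  · exact absurd (sub_eq_zero.1 h) h1
  · exact h

theorem modeq {F : Type} [Field F] {r : ℕ} {ζ : F} (hr : 0 < r) (hz : IsPrimitiveRoot ζ r) {j k : ℕ}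
    (h : ζ ^ j = ζ ^ k) : j % r = k % r := by
  rw [pow_eq_pow_mod j hz.pow_eq_one, pow_eq_pow_mod k hz.pow_eq_one] at h
  exact hz.pow_inj (Nat.mod_lt _ hr) (Nat.mod_lt _ hr) h

theorem eqmod {F : Type} [Field F] {r : ℕ} {ζ : F} (hz : IsPrimitiveRoot ζ r) {j k : ℕ}
    (h : j % r = k % r) : ζ ^ j = ζ ^ k := by
  rw [pow_eq_pow_mod j hz.pow_eq_one, pow_eq_pow_mod k hz.pow_eq_one, h]

/-- the projection -/
noncomputable def pr {F L : Type} [Field F] [LieRing L] [LieAlgebra F L] (r : ℕ) (σ : L →ₗ[F] L) (ζ : F)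
    (k : ℕ) : L →ₗ[F] L := (r : F)⁻¹ • ∑ i ∈ Finset.range r, (ζ ^ (k * i))⁻¹ • (σ ^ i)

theorem pr_apply {F L : Type} [Field F] [LieRing L] [LieAlgebra F L] (r : ℕ) (σ : L →ₗ[F] L) (ζ : F)
    (k : ℕ) (a : L) : pr r σ ζ k a = (r : F)⁻¹ • ∑ i ∈ Finset.range r, (ζ ^ (k * i))⁻¹ • (σ ^ i) a := by
  unfold pr
  rw [LinearMap.smul_apply, LinearMap.sum_apply]
  rfl

theorem pr_W {F L : Type} [Field F] [LieRing L] [LieAlgebra F L] {r : ℕ} {σ : L →ₗ[F] L} {ζ : F}
    (k j : ℕ) {a : L} (ha : a ∈ W σ ζ j) :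
    pr r σ ζ k a = ((r : F)⁻¹ * ∑ i ∈ Finset.range r, (ζ ^ j / ζ ^ k) ^ i) • a := by
  rw [pr_apply, Finset.mul_sum, Finset.sum_smul, Finset.smul_sum]
  refine Finset.sum_congr rfl fun i _ => ?_
  rw [pow_W ha, smul_smul, smul_smul]
  congr 1
  rw [div_pow, ← pow_mul, ← pow_mul, div_eq_mul_inv]
  ring

theorem eig : EigStmt := by
  intro F L _ _ _ r σ ζ h
  have hz := h.prim
  have hz0 : ζ ≠ 0 := fun h0 => by
    have := hz.pow_eq_one
    rw [h0, zero_pow h.pos.ne'] at this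
    exact zero_ne_one this
  have h1 : ζ ^ r = 1 := hz.pow_eq_one
  have hproj : ∀ k j, j % r = k % r → ∀ a ∈ W σ ζ j, pr r σ ζ k a = a := by
    intro k j hjk a ha
    rw [pr_W k j ha, eqmod hz hjk, div_self (pow_ne_zero _ hz0)]
    simp only [one_pow, Finset.sum_const, Finset.card_range, nsmul_eq_mul, mul_one]
    rw [inv_mul_cancel₀ h.ne, one_smul]
  refine ⟨?_, ?_, ?_, ?_⟩
  · intro k
    ext a
    rw [mem_W, mem_W, pow_add, h1, mul_one]
  · intro i j a ha b hb
    rw [mem_W] at ha hb ⊢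
    rw [h.lie, ha, hb, smul_lie, lie_smul, smul_smul, pow_add]
  · intro A hA a ha
    have hAi : ∀ i, (σ ^ i) a ∈ A := by
      intro i
      induction i with
      | zero => simpa using ha
      | succ i ih =>
        rw [pow_succ', Module.End.mul_apply]
        exact hA _ ih
    refine ⟨fun k => pr r σ ζ k a, fun k => ⟨?_, ?_⟩, ?_⟩
    · show pr r σ ζ k a ∈ A
      rw [pr_apply]
      exact A.smul_mem _ (A.sum_mem fun i _ => A.smul_mem _ (hAi i))
    · show σ (pr r σ ζ k a) = ζ ^ k • pr r σ ζ k a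
      rw [pr_apply, map_smul, map_sum, smul_comm (ζ ^ k) ((r : F)⁻¹)]
      congr 1
      rw [Finset.smul_sum]
      have e1 : ∑ i ∈ Finset.range r, σ ((ζ ^ (k * i))⁻¹ • (σ ^ i) a) =
          ∑ i ∈ Finset.range r, (ζ ^ k * (ζ ^ (k * (i + 1)))⁻¹) • (σ ^ (i + 1)) a := by
        refine Finset.sum_congr rfl fun i _ => ?_
        rw [map_smul, pow_succ' σ, Module.End.mul_apply]
        congr 1
        rw [mul_add, mul_one, pow_add]
        field_simp
      have e2 : ∑ i ∈ Finset.range r, ζ ^ k • (ζ ^ (k * i))⁻¹ • (σ ^ i) a =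
          ∑ i ∈ Finset.range r, (ζ ^ k * (ζ ^ (k * i))⁻¹) • (σ ^ i) a := by
        refine Finset.sum_congr rfl fun i _ => ?_
        rw [smul_smul]
      rw [e1, e2]
      have e3 := Finset.sum_range_succ (fun i => (ζ ^ k * (ζ ^ (k * i))⁻¹) • (σ ^ i) a) r
      have e4 := Finset.sum_range_succ' (fun i => (ζ ^ k * (ζ ^ (k * i))⁻¹) • (σ ^ i) a) r
      rw [e3] at e4
      have e5 : (ζ ^ k * (ζ ^ (k * r))⁻¹) • (σ ^ r) a = (ζ ^ k * (ζ ^ (k * 0))⁻¹) • (σ ^ 0) a := by
        rw [h.pow, mul_comm k r, pow_mul, h1, one_pow]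
        simp
      rw [e5] at e4
      exact (add_right_cancel e4).symm
    · have e : ∀ k, pr r σ ζ k a = (r : F)⁻¹ • ∑ i ∈ Finset.range r, (ζ ^ (k * i))⁻¹ • (σ ^ i) a :=
        fun k => pr_apply r σ ζ k a
      simp only [e]
      rw [← Finset.smul_sum, Finset.sum_comm]
      have h2 : ∀ i ∈ Finset.range r, ∑ k ∈ Finset.range r, (ζ ^ (k * i))⁻¹ • (σ ^ i) a =
          if i = 0 then (r : F) • a else 0 := by
        intro i hi
        rw [← Finset.sum_smul]
        split_ifs with h0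
        · subst h0
          simp
        · have hx : ∀ k, (ζ ^ (k * i))⁻¹ = ((ζ ^ i)⁻¹) ^ k := by
            intro k
            rw [inv_pow, ← pow_mul, mul_comm]
          simp only [hx]
          rw [geo, zero_smul]
          · rw [inv_pow, ← pow_mul, mul_comm i r, pow_mul, h1, one_pow, inv_one]
          · intro h3
            have h4 : ζ ^ i = ζ ^ 0 := by
              rw [pow_zero]
              exact inv_eq_one.1 h3
            have h5 := modeq h.pos hz h4
            rw [Nat.zero_mod, Nat.mod_eq_of_lt (Finset.mem_range.1 hi)] at h5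
            exact h0 h5
      rw [Finset.sum_congr rfl h2, Finset.sum_ite_eq' (Finset.range r) 0 (fun _ => (r : F) • a),
        if_pos (Finset.mem_range.2 h.pos), smul_smul, inv_mul_cancel₀ h.ne, one_smul]
  · intro k
    refine ⟨pr r σ ζ k, fun a ha => hproj k k rfl a ha, fun j hj a ha => hproj k j hj a ha, ?_⟩
    intro j hj a ha
    rw [pr_W k j ha, geo, mul_zero, zero_smul]
    · rw [div_pow, ← pow_mul, ← pow_mul, mul_comm j r, mul_comm k r, pow_mul, pow_mul, h1, one_pow,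
        one_pow, div_one]
    · intro h3
      rw [div_eq_one_iff_eq (pow_ne_zero _ hz0)] at h3
      exact hj (modeq h.pos hz h3)

end Pool.Agent.ISB.H53
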